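import Mathlib

/-!
# Module CFSB-Arith: arithmetic of the step (compare `ind_arith`, `atom_arith` in `CFS/IndB.lean`)
-/

namespace CFS

theorem b_arith (A1 ζ J A p N ρ C3 : ℝ) (hA1 : 0 ≤ A1) (hζ : 0 < ζ)
    (hJ : 0 ≤ J) (hρ : 0 < ρ) (hN : ρ ^ 2 < 2 * N)
    (hC3 : C3 = (2 + J ^ 2) * A1 * (1 / ζ ^ 3 + 2 / ζ) + 5) (hA : 7 * C3 ≤ A)
    (h : p ≤ 3 / 20 * p + (2 + J ^ 2) * (A1 * (N ^ 2 / (ζ * ρ) ^ 3 + N / (ζ * ρ)))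
      + (A * (N ^ 2 / 2 / (9 / 10 * ρ) ^ 3) + 2 * (N / (9 / 10 * ρ)))) :
    p ≤ A * (N ^ 2 / ρ ^ 3) + 2 * (N / ρ) := by
  have hN0 : 0 < N := by nlinarith [pow_pos hρ 2]
  have hJ2 : 0 ≤ (2 + J ^ 2) * A1 := mul_nonneg (by positivity) hA1
  obtain ⟨X, hX⟩ : ∃ X, X = N ^ 2 / ρ ^ 3 := ⟨_, rfl⟩
  obtain ⟨Y, hY⟩ : ∃ Y, Y = N / ρ := ⟨_, rfl⟩
  have hX0 : 0 ≤ X := by
    rw [hX]
    positivity
  have hY0 : 0 ≤ Y := by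
    rw [hY]
    positivity
  have hYX : Y ≤ 2 * X := by
    have e : Y = N * ρ ^ 2 / ρ ^ 3 := by
      rw [hY]
      field_simp
    rw [e, hX, ← mul_div_assoc]
    refine div_le_div_of_nonneg_right ?_ (by positivity)
    nlinarith
  have e1 : N ^ 2 / (ζ * ρ) ^ 3 = X * (1 / ζ ^ 3) := by
    rw [hX]
    field_simp
  have e2 : N / (ζ * ρ) = Y * (1 / ζ) := by
    rw [hY]
    field_simp
  have e3 : N ^ 2 / 2 / (9 / 10 * ρ) ^ 3 = 1000 / 1458 * X := by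
    rw [hX]
    field_simp
    norm_num
  have e4 : N / (9 / 10 * ρ) = 10 / 9 * Y := by
    rw [hY]
    field_simp
  have e5 : Y * (1 / ζ) ≤ 2 * X * (1 / ζ) := mul_le_mul_of_nonneg_right hYX (by positivity)
  have e6 : (2 + J ^ 2) * (A1 * (X * (1 / ζ ^ 3) + Y * (1 / ζ))) ≤
      ((2 + J ^ 2) * A1 * (1 / ζ ^ 3 + 2 / ζ)) * X := by
    calc (2 + J ^ 2) * (A1 * (X * (1 / ζ ^ 3) + Y * (1 / ζ)))
        = ((2 + J ^ 2) * A1) * (X * (1 / ζ ^ 3) + Y * (1 / ζ)) := by ring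
      _ ≤ ((2 + J ^ 2) * A1) * (X * (1 / ζ ^ 3) + 2 * X * (1 / ζ)) :=
          mul_le_mul_of_nonneg_left (by linarith) hJ2
      _ = ((2 + J ^ 2) * A1 * (1 / ζ ^ 3 + 2 / ζ)) * X := by ring
  have e7 : ((2 + J ^ 2) * A1 * (1 / ζ ^ 3 + 2 / ζ)) * X = C3 * X - 5 * X := by
    rw [hC3]
    ring
  have h0 : 0 ≤ (2 + J ^ 2) * A1 * (1 / ζ ^ 3 + 2 / ζ) := mul_nonneg hJ2 (by positivity)
  have h1 : 7 * (C3 * X) ≤ A * X := by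
    have := mul_le_mul_of_nonneg_right hA hX0
    linarith
  have h2 : 5 * X ≤ C3 * X := mul_le_mul_of_nonneg_right (by linarith) hX0
  have h3 : A * (1000 / 1458 * X) = 1000 / 1458 * (A * X) := by ring
  rw [e1, e2, e3, e4, h3] at h
  rw [← hX, ← hY]
  linarith

end CFS
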