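import Pool.Agent.CFS.B.BDefs
import Pool.Agent.CFS.Core2
import Pool.Agent.CFS.Triv

/-!
# Module CFSB-Base: the base case, all blocks are separated

Plan.
* `core_mapX`: `core_map` for points of an arbitrary type `X` and `g : X → W l`; copy the proof of
  `core_map` in `CFS/Core2.lean` (the set `mp P g H i = {z | ∃ p ∈ P, H p i ∧ g p = z}`).
* `b_base`: `l = Σ t, L t`, an equivalence `e : (Σ t, Fin (L t)) ≃ Fin l` (`finSigmaFinEquiv` or
  `Fintype.equivFinOfCardEq` with `Fintype.card_sigma`, or simply take `l = Fintype.card (Σ t, Fin (L t))` and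
  `Fintype.equivFin _`).  `flat : ((t : κ) → (Fin (L t) → ℝ)) → (Fin l → ℝ)`,
  `flat x k = x (e.symm k).1 (e.symm k).2`.  With `g t` from `SepA` for each `t` (`choose`), put
  `G p = (flat (fun t => (g t (pt p t)).1), flat (fun t => (g t (pt p t)).2))`.
  `Hor (G p) (G q)`: `dist (flat x) (flat y) ≤ c` iff every coordinate distance is `≤ c`
  (`dist_pi_le_iff`); coordinate `(t, k)`: `|..| ≤ dist (x t) (y t) ≤ dist (x' t) (y' t) / 100 ≤
  dist (flat x') (flat y') / 100` (each `dist (x' t) (y' t) ≤ dist (flat x') (flat y')` by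
  `dist_pi_le_iff` again, or `L t = 0` harmless).  `G` is injective on `P`: equality of all coordinates
  gives `g t (pt p t) = g t (pt q t)`, so `pt p t = pt q t` for all `t`, `ptinj`.
  Apply `core_mapX` (constant `A0`) with `H i = {p | inc p i ∧ Lf i}` if `A0 ≤ ρ`.  If `ρ < A0`: `triv2` with
  `S p = I.filter (fun i => inc p i ∧ Lf i)` (`|S p ∩ S q| ≤ 1` from `Fam.one`):
  `|P| ≤ 2 |I|²/ρ² ≤ 2 A0 |I|²/ρ³`.  `A = 2 A0`.
-/

noncomputable section

namespace CFS

open Finset Classical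

/-- the image of a set in `P` under `g` -/
private def mpX {l : ℕ} {ι X : Type} (P : Finset X) (g : X → W l) (H : X → ι → Prop) (i : ι) :
    Set (W l) := {z | ∃ p ∈ P, H p i ∧ g p = z}

private theorem mpX_iff {l : ℕ} {ι X : Type} {P : Finset X} {g : X → W l} {H : X → ι → Prop}
    (hg : ∀ p ∈ P, ∀ q ∈ P, g p = g q → p = q) {i : ι} {p : X} (hp : p ∈ P) :
    g p ∈ mpX P g H i ↔ H p i := by
  constructor
  · rintro ⟨q, hq, hqH, e⟩
    rw [← hg q hq p hp e]
    exact hqH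
  · intro h
    exact ⟨p, hp, h, rfl⟩

private theorem mpX_few {l : ℕ} {ι X : Type} {I : Finset ι} {P : Finset X} {g : X → W l}
    {H : X → ι → Prop} (hg : ∀ p ∈ P, ∀ q ∈ P, g p = g q → p = q)
    (h : ∀ p ∈ P, ∀ q ∈ P, p ≠ q → ∀ i ∈ I, ∀ i' ∈ I, H p i → H q i → H p i' → H q i' →
        i = i') (T : Finset (W l)) (hT : T ⊆ P.image g) (hc : T.card = 2) :
    (I.filter (fun i => ∀ p ∈ T, p ∈ mpX P g H i)).card ≤ 1 := by
  obtain ⟨z, z', hne, rfl⟩ := Finset.card_eq_two.1 hc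
  obtain ⟨p, hp, rfl⟩ := Finset.mem_image.1 (hT (Finset.mem_insert_self z {z'}))
  obtain ⟨q, hq, rfl⟩ := Finset.mem_image.1
    (hT (Finset.mem_insert_of_mem (Finset.mem_singleton_self z')))
  have hpq : p ≠ q := fun e => hne (by rw [e])
  rw [Finset.card_le_one]
  intro i hi i' hi'
  obtain ⟨hiI, hi⟩ := Finset.mem_filter.1 hi
  obtain ⟨hiI', hi'⟩ := Finset.mem_filter.1 hi'
  have m1 := hi (g p) (Finset.mem_insert_self _ _)
  have m2 := hi (g q) (Finset.mem_insert_of_mem (Finset.mem_singleton_self _))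
  have m3 := hi' (g p) (Finset.mem_insert_self _ _)
  have m4 := hi' (g q) (Finset.mem_insert_of_mem (Finset.mem_singleton_self _))
  rw [mpX_iff hg hp] at m1 m3
  rw [mpX_iff hg hq] at m2 m4
  exact h p hp q hq hpq i hiI i' hiI' m1 m2 m3 m4

theorem core_mapX (l : ℕ) : ∃ A : ℝ, 1 ≤ A ∧
    ∀ {ι X : Type} (I : Finset ι) (P : Finset X) (g : X → W l) (H V : X → ι → Prop) (ρ : ℝ),
      (∀ p ∈ P, ∀ q ∈ P, g p = g q → p = q) →
      (∀ i ∈ I, ∀ p ∈ P, ∀ q ∈ P, H p i → H q i → Hor (g p) (g q)) →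
      (∀ i ∈ I, ∀ p ∈ P, ∀ q ∈ P, V p i → V q i → Ver (g p) (g q)) →
      (∀ p ∈ P, ∀ q ∈ P, p ≠ q → ∀ i ∈ I, ∀ i' ∈ I, H p i → H q i → H p i' → H q i' → i = i') →
      (∀ p ∈ P, ∀ q ∈ P, p ≠ q → ∀ i ∈ I, ∀ i' ∈ I, V p i → V q i → V p i' → V q i' → i = i') →
      A ≤ ρ →
      (∀ p ∈ P, ρ ≤ ((I.filter (fun i => H p i)).card : ℝ)) →
      (∀ p ∈ P, ρ ≤ ((I.filter (fun i => V p i)).card : ℝ)) →
      (P.card : ℝ) ≤ A * ((I.card : ℝ) ^ 2 / ρ ^ 3 + I.card / ρ) := by
  obtain ⟨A, hA, h⟩ := core_two l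
  refine ⟨A, hA, ?_⟩
  intro ι X I P g H V ρ hg hH hV fH fV hρ rH rV
  have hcard : (P.image g).card = P.card :=
    Finset.card_image_of_injOn fun p hp q hq e => hg p hp q hq e
  have hS : System l 2 1 I (P.image g) (mpX P g H) (mpX P g V) := by
    refine ⟨?_, ?_, mpX_few hg fH, mpX_few hg fV⟩
    · rintro i hi z hz z' hz' ⟨p, hp, hpH, rfl⟩ ⟨q, hq, hqH, rfl⟩
      exact hH i hi p hp q hq hpH hqH
    · rintro i hi z hz z' hz' ⟨p, hp, hpH, rfl⟩ ⟨q, hq, hqH, rfl⟩
      exact hV i hi p hp q hq hpH hqH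
  have h1 := h I (P.image g) (mpX P g H) (mpX P g V) ρ hS hρ ?_ ?_
  · rw [hcard] at h1
    exact h1
  · intro z hz
    obtain ⟨p, hp, rfl⟩ := Finset.mem_image.1 hz
    have e : I.filter (fun i => g p ∈ mpX P g H i) = I.filter (fun i => H p i) :=
      Finset.filter_congr fun i _ => mpX_iff hg hp
    rw [e]
    exact rH p hp
  · intro z hz
    obtain ⟨p, hp, rfl⟩ := Finset.mem_image.1 hz
    have e : I.filter (fun i => g p ∈ mpX P g V i) = I.filter (fun i => V p i) :=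
      Finset.filter_congr fun i _ => mpX_iff hg hp
    rw [e]
    exact rV p hp

theorem b_base {κ : Type} [Fintype κ] (L : κ → ℕ) (V : κ → Type)
    [∀ t, NormedAddCommGroup (V t)] (M w : ℝ) : Good L V M w Finset.univ := by
  obtain ⟨A0, hA0, hcore⟩ := core_mapX (Fintype.card (Σ t, Fin (L t)))
  refine ⟨2 * A0, by linarith, ?_⟩
  intro ι X inc pt a I P Lf Rf ρ hF hsep hρ hL hR
  have hρ0 : 0 < ρ := by linarith
  choose g hg1 hg2 hg3 using fun t => hsep t (Finset.mem_univ t)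
  set e : (Σ t, Fin (L t)) ≃ Fin (Fintype.card (Σ t, Fin (L t))) := Fintype.equivFin _ with he
  set flat : ((t : κ) → (Fin (L t) → ℝ)) → (Fin (Fintype.card (Σ t, Fin (L t))) → ℝ) :=
    fun x k => x (e.symm k).1 (e.symm k).2 with hflat
  have hfe : ∀ (x : (t : κ) → (Fin (L t) → ℝ)) (t : κ) (k : Fin (L t)), flat x (e ⟨t, k⟩) = x t k := by
    intro x t k
    have h2 : ∀ z : (Σ t, Fin (L t)), z = ⟨t, k⟩ → x z.1 z.2 = x t k := by
      rintro _ rfl
      rfl
    exact h2 _ (e.symm_apply_apply _)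
  have hi : ∀ (x y : (t : κ) → (Fin (L t) → ℝ)) (t : κ), dist (x t) (y t) ≤ dist (flat x) (flat y) := by
    intro x y t
    rw [dist_pi_le_iff dist_nonneg]
    intro k
    rw [← hfe x t k, ← hfe y t k]
    exact dist_le_pi_dist _ _ _
  have hii : ∀ (x y : (t : κ) → (Fin (L t) → ℝ)) (c : ℝ), 0 ≤ c → (∀ t, dist (x t) (y t) ≤ c) →
      dist (flat x) (flat y) ≤ c := by
    intro x y c hc h
    rw [dist_pi_le_iff hc]
    intro k
    exact (dist_le_pi_dist (x (e.symm k).1) (y (e.symm k).1) (e.symm k).2).trans (h _)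
  set G : X → W (Fintype.card (Σ t, Fin (L t))) :=
    fun p => (flat (fun t => (g t (pt p t)).1), flat (fun t => (g t (pt p t)).2)) with hG
  have hfinj : ∀ x y : (t : κ) → (Fin (L t) → ℝ), flat x = flat y → ∀ t, x t = y t := by
    intro x y h t
    funext k
    rw [← hfe x t k, ← hfe y t k, h]
  have hGinj : ∀ p ∈ P, ∀ q ∈ P, G p = G q → p = q := by
    intro p hp q hq h
    apply hF.ptinj p hp q hq
    intro t
    apply hg1 t
    have h1 := congrArg Prod.fst h
    have h2 := congrArg Prod.snd h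
    exact Prod.ext (hfinj (fun t => (g t (pt p t)).1) (fun t => (g t (pt q t)).1) h1 t)
      (hfinj (fun t => (g t (pt p t)).2) (fun t => (g t (pt q t)).2) h2 t)
  have hHor : ∀ i ∈ I, ∀ p ∈ P, ∀ q ∈ P, (inc p i ∧ Lf i) → (inc q i ∧ Lf i) → Hor (G p) (G q) := by
    intro i hi' p hp q hq h1 h2
    unfold Hor
    refine hii (fun t => (g t (pt p t)).2) (fun t => (g t (pt q t)).2) _ (by positivity) ?_
    intro t
    have h3 : Hor (g t (pt p t)) (g t (pt q t)) := hg2 t i hi' h1.2 p hp q hq h1.1 h2.1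
    unfold Hor at h3
    have h4 := hi (fun t => (g t (pt p t)).1) (fun t => (g t (pt q t)).1) t
    refine h3.trans ?_
    exact div_le_div_of_nonneg_right h4 (by norm_num)
  have hVer : ∀ i ∈ I, ∀ p ∈ P, ∀ q ∈ P, (inc p i ∧ Rf i) → (inc q i ∧ Rf i) → Ver (G p) (G q) := by
    intro i hi' p hp q hq h1 h2
    unfold Ver
    refine hii (fun t => (g t (pt p t)).1) (fun t => (g t (pt q t)).1) _ (by positivity) ?_
    intro t
    have h3 : Ver (g t (pt p t)) (g t (pt q t)) := hg3 t i hi' h1.2 p hp q hq h1.1 h2.1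
    unfold Ver at h3
    have h4 := hi (fun t => (g t (pt p t)).2) (fun t => (g t (pt q t)).2) t
    refine h3.trans ?_
    exact div_le_div_of_nonneg_right h4 (by norm_num)
  have hn0 : (0 : ℝ) ≤ (I.card : ℝ) := Nat.cast_nonneg _
  have hsq0 : (0 : ℝ) ≤ (I.card : ℝ) ^ 2 / ρ ^ 3 := by positivity
  have hli0 : (0 : ℝ) ≤ (I.card : ℝ) / ρ := by positivity
  have hfe : ∀ (Q : ι → Prop) (d1 d2 : DecidablePred Q),
      @Finset.filter ι Q d1 I = @Finset.filter ι Q d2 I := by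
    intro Q d1 d2
    rw [Subsingleton.elim d1 d2]
  by_cases hAρ : A0 ≤ ρ
  · have hL' : ∀ p ∈ P, ρ ≤ ((@Finset.filter ι (fun i => inc p i ∧ Lf i)
        (fun _ => Classical.propDecidable _) I).card : ℝ) := by
      intro p hp
      have h := hL p hp
      rw [hfe _ _ (fun _ => Classical.propDecidable _)] at h
      exact h
    have hR' : ∀ p ∈ P, ρ ≤ ((@Finset.filter ι (fun i => inc p i ∧ Rf i)
        (fun _ => Classical.propDecidable _) I).card : ℝ) := by
      intro p hp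
      have h := hR p hp
      rw [hfe _ _ (fun _ => Classical.propDecidable _)] at h
      exact h
    have h1 := hcore I P G (fun p i => inc p i ∧ Lf i) (fun p i => inc p i ∧ Rf i) ρ hGinj hHor hVer
      (fun p hp q hq hpq i hi' i' hi'' h1 h2 h3 h4 =>
        hF.one p hp q hq hpq i hi' i' hi'' h1.1 h2.1 h3.1 h4.1)
      (fun p hp q hq hpq i hi' i' hi'' h1 h2 h3 h4 =>
        hF.one p hp q hq hpq i hi' i' hi'' h1.1 h2.1 h3.1 h4.1) hAρ hL' hR'
    refine h1.trans ?_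
    apply mul_le_mul_of_nonneg_right _ (by linarith)
    linarith
  · push Not at hAρ
    have h1 := triv2 I P (fun p => I.filter (fun i => inc p i ∧ Lf i))
      (fun p _ => Finset.filter_subset _ _) (by
        intro p hp q hq hpq
        rw [Finset.card_le_one]
        intro i hi' i' hi''
        rw [Finset.mem_inter, Finset.mem_filter, Finset.mem_filter] at hi' hi''
        exact hF.one p hp q hq hpq i hi'.1.1 i' hi''.1.1 hi'.1.2.1 hi'.2.2.1 hi''.1.2.1 hi''.2.2.1)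
      ρ hρ hL
    have h2 : (P.card : ℝ) ≤ 2 * A0 * ((I.card : ℝ) ^ 2 / ρ ^ 3) := by
      rw [← mul_div_assoc, le_div_iff₀ (by positivity)]
      calc (P.card : ℝ) * ρ ^ 3 = (P.card : ℝ) * ρ ^ 2 * ρ := by ring
        _ ≤ 2 * (I.card : ℝ) ^ 2 * ρ := mul_le_mul_of_nonneg_right h1 hρ0.le
        _ ≤ 2 * (I.card : ℝ) ^ 2 * A0 := mul_le_mul_of_nonneg_left hAρ.le (by positivity)
        _ = 2 * A0 * (I.card : ℝ) ^ 2 := by ring
    have h3 : 0 ≤ 2 * A0 * ((I.card : ℝ) / ρ) := by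
      apply mul_nonneg _ hli0
      linarith
    linarith

end CFS
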