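import Pool.Agent.CFS.Defs

/-!
# Project CFS, part B (block families): definitions

`SepA inc pt I Lf Rf P`: in the coordinates `pt : X → W l` there is an injective change of
coordinates `g` of `W l` in which every surface `i ∈ I` with `Lf i` is horizontal at the points of `P` and
every surface with `Rf i` is vertical at the points of `P`.
`Fam`: the abstract properties of a family of surfaces used by the induction.  `κ` is the finite
set of blocks, `a t i : V t` is the slope of the surface `i` in the block `t`.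
-/

noncomputable section

namespace CFS

open Finset Classical

def SepA {l : ℕ} {ι X : Type} (inc : X → ι → Prop) (pt : X → W l) (I : Finset ι)
    (Lf Rf : ι → Prop) (P : Finset X) : Prop :=
  ∃ g : W l → W l, Function.Injective g ∧
    (∀ i ∈ I, Lf i → ∀ p ∈ P, ∀ q ∈ P, inc p i → inc q i → Hor (g (pt p)) (g (pt q))) ∧
    (∀ i ∈ I, Rf i → ∀ p ∈ P, ∀ q ∈ P, inc p i → inc q i → Ver (g (pt p)) (g (pt q)))

structure Fam {κ : Type} (L : κ → ℕ) (V : κ → Type) [∀ t, NormedAddCommGroup (V t)]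
    (M w : ℝ) {ι X : Type} (inc : X → ι → Prop) (pt : X → (t : κ) → W (L t))
    (a : (t : κ) → ι → V t) (I : Finset ι) (P : Finset X) : Prop where
  ptinj : ∀ p ∈ P, ∀ q ∈ P, (∀ t, pt p t = pt q t) → p = q
  one : ∀ p ∈ P, ∀ q ∈ P, p ≠ q → ∀ i ∈ I, ∀ j ∈ I, inc p i → inc q i → inc p j → inc q j → i = j
  ne : ∀ t, ∀ p ∈ P, ∀ i ∈ I, ∀ j ∈ I, i ≠ j → inc p i → inc p j → a t i ≠ a t j
  nf : ∀ t, ∀ i0 ∈ I, ∀ R : ℝ, 0 < R → ∀ P' : Finset X, P' ⊆ P →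
    (∀ p ∈ P', ∃ i ∈ I, inc p i ∧ ‖a t i - a t i0‖ ≤ R) →
    SepA inc (fun p => pt p t) I (fun i => ‖a t i - a t i0‖ ≤ R)
      (fun i => w * R < ‖a t i - a t i0‖) P' ∧
    SepA inc (fun p => pt p t) I (fun i => w * R < ‖a t i - a t i0‖)
      (fun i => ‖a t i - a t i0‖ ≤ R) P'
  nn : ∀ t, ∀ Q1 Q2 : ι → Prop, ∀ δ : ℝ, 0 < δ →
    (∀ i ∈ I, ∀ j ∈ I, Q1 i → Q1 j → ‖a t i - a t j‖ ≤ δ) →
    (∀ i ∈ I, ∀ j ∈ I, Q2 i → Q2 j → ‖a t i - a t j‖ ≤ δ) →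
    (∀ i ∈ I, ∀ j ∈ I, Q1 i → Q2 j → M * δ ≤ ‖a t i - a t j‖) →
    (∃ p ∈ P, ∃ i ∈ I, ∃ j ∈ I, inc p i ∧ inc p j ∧ Q1 i ∧ Q2 j) →
    SepA inc (fun p => pt p t) I Q1 Q2 P

/-- the statement proved by induction on the blocks: the blocks of `B` are already separated -/
def Good {κ : Type} (L : κ → ℕ) (V : κ → Type) [∀ t, NormedAddCommGroup (V t)]
    (M w : ℝ) (B : Finset κ) : Prop :=
  ∃ A : ℝ, 1 ≤ A ∧ ∀ {ι X : Type} (inc : X → ι → Prop) (pt : X → (t : κ) → W (L t))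
    (a : (t : κ) → ι → V t) (I : Finset ι) (P : Finset X) (Lf Rf : ι → Prop) (ρ : ℝ),
    Fam L V M w inc pt a I P →
    (∀ t ∈ B, SepA inc (fun p => pt p t) I Lf Rf P) → 2 ≤ ρ →
    (∀ p ∈ P, ρ ≤ ((I.filter (fun i => inc p i ∧ Lf i)).card : ℝ)) →
    (∀ p ∈ P, ρ ≤ ((I.filter (fun i => inc p i ∧ Rf i)).card : ℝ)) →
    (P.card : ℝ) ≤ A * ((I.card : ℝ) ^ 2 / ρ ^ 3 + I.card / ρ)

end CFS
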