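import Pool.Agent.CFS.B.BDefs

/-!
# Module CFSB-Mono: monotonicity of `SepA` and `Fam`

Plan.
* `sepA_mono`: the same `g`.
* `fam_mono`: `nf`: apply the hypothesis with `i0 ∈ I' ⊆ I`, the witnesses `i ∈ I'` are in `I`, and
  `sepA_mono`.  `nn`: apply the hypothesis to `Q1' i = (Q1 i ∧ i ∈ I')`, `Q2' i = (Q2 i ∧ i ∈ I')`
  (the diameter and separation conditions for `i j ∈ I` with `Q1' i` etc. only concern `I'`), then
  `sepA_mono` (for `i ∈ I'`, `Q1 i → Q1' i`).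
-/

noncomputable section

namespace CFS

open Finset Classical

theorem sepA_mono {l : ℕ} {ι X : Type} {inc : X → ι → Prop} {pt : X → W l} {I I' : Finset ι}
    {Lf Rf Lf' Rf' : ι → Prop} {P P' : Finset X} (h : SepA inc pt I Lf Rf P) (hI : I' ⊆ I)
    (hP : P' ⊆ P) (hL : ∀ i ∈ I', Lf' i → Lf i) (hR : ∀ i ∈ I', Rf' i → Rf i) :
    SepA inc pt I' Lf' Rf' P' := by
  obtain ⟨g, hg, h1, h2⟩ := h
  refine ⟨g, hg, ?_, ?_⟩
  · intro i hi hl p hp q hq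
    exact h1 i (hI hi) (hL i hi hl) p (hP hp) q (hP hq)
  · intro i hi hr p hp q hq
    exact h2 i (hI hi) (hR i hi hr) p (hP hp) q (hP hq)

theorem fam_mono {κ : Type} {L : κ → ℕ} {V : κ → Type} [∀ t, NormedAddCommGroup (V t)]
    {M w : ℝ} {ι X : Type} {inc : X → ι → Prop} {pt : X → (t : κ) → W (L t)}
    {a : (t : κ) → ι → V t} {I I' : Finset ι} {P P' : Finset X}
    (h : Fam L V M w inc pt a I P) (hI : I' ⊆ I) (hP : P' ⊆ P) :
    Fam L V M w inc pt a I' P' := by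
  refine ⟨?_, ?_, ?_, ?_, ?_⟩
  · intro p hp q hq
    exact h.ptinj p (hP hp) q (hP hq)
  · intro p hp q hq hne i hi j hj
    exact h.one p (hP hp) q (hP hq) hne i (hI hi) j (hI hj)
  · intro t p hp i hi j hj
    exact h.ne t p (hP hp) i (hI hi) j (hI hj)
  · intro t i0 hi0 R hR P'' hP'' hw
    obtain ⟨h1, h2⟩ := h.nf t i0 (hI hi0) R hR P'' (hP''.trans hP) (by
      intro p hp
      obtain ⟨i, hi, h3⟩ := hw p hp
      exact ⟨i, hI hi, h3⟩)
    exact ⟨sepA_mono h1 hI subset_rfl (fun i _ h => h) (fun i _ h => h),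
      sepA_mono h2 hI subset_rfl (fun i _ h => h) (fun i _ h => h)⟩
  · intro t Q1 Q2 δ hδ h1 h2 h3 h4
    have h5 := h.nn t (fun i => Q1 i ∧ i ∈ I') (fun i => Q2 i ∧ i ∈ I') δ hδ
      (fun i _ j _ hi hj => h1 i hi.2 j hj.2 hi.1 hj.1)
      (fun i _ j _ hi hj => h2 i hi.2 j hj.2 hi.1 hj.1)
      (fun i _ j _ hi hj => h3 i hi.2 j hj.2 hi.1 hj.1) (by
        obtain ⟨p, hp, i, hi, j, hj, h6, h7, h8, h9⟩ := h4
        exact ⟨p, hP hp, i, hI hi, j, hI hj, h6, h7, ⟨h8, hi⟩, ⟨h9, hj⟩⟩)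
    exact sepA_mono h5 hI hP (fun i hi h => ⟨h, hi⟩) (fun i hi h => ⟨h, hi⟩)

end CFS
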