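import Pool.Agent.CFS.SplA
import Pool.Agent.CFS.SplB

/-!
# Module CFSB-Split2: two-coloured splitting lemma

Like `split_lemma` (`CFS/Split.lean`, complete proof there: copy and adapt) but every point has two
nonempty sets `SL p, SR p ⊆ F`, and the centre `v` is the slope of an element of `F`.
(File `SplB.lean` has `ring_pig`, `cut_pig`, `dich`.)

Plan.
* `ring_pig2`: for each `p` at most 49 values `t < 1000` are bad for `SL`, at most 49 for `SR`; so
  `Σ_t #{p bad at t} ≤ 98 |P|` and some `t` has `10 * #{bad} ≤ |P|`.  (Or: apply `ring_pig` to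
  `P.disjSum P` with `S (inl p) = SL p`, `S (inr p) = SR p`: `20 * #bad ≤ 2 |P|`.)
* `split2`: same constants as in `split_lemma`.  `Ex = E1 ∪ E2`, `10 |E1| ≤ |P|` (ring), `20 |E2| ≤ |P|` (cut), so
  `20 |Ex| ≤ 3 |P|`.  For `p ∉ Ex` apply `dich` to `SL p` and to `SR p`.
  Let `nL, fL, hL` be the near, far, near-and-heavy counts of `SL p` (`m_L = |SL p| > 0`), same for `R`;
  `ζ = 1/(25 J2)`.
  - if `nL ≥ ζ m_L` and `fR ≥ ζ m_R`: alternative 1.  If `fL ≥ ζ m_L` and `nR ≥ ζ m_R`: alternative 2.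
  - otherwise: from `dich`: (`nL < ζ m_L` implies `9 m_L ≤ 10 fL`, as in the other cases `nL ≥ ζ m_L`:
    `hL ≥ 9m_L/10` implies `nL ≥ ζ m_L`), (`fL < ζ m_L` implies `9 m_L ≤ 10 hL`), same for `R`.
    `nL < ζ m_L` and `fL < ζ m_L` cannot both hold.  So we are in one of the cases: `nL`, `nR` both small
    (then `fL, fR ≥ 9/10`: alternative 4 with the far class) or `fL`, `fR` both small (then `hL, hR ≥ 9/10`).
  - in the last case: `f1 ∈ SL p` near and heavy for `SL p` exists; `b p` = slope of such an `f1`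
    (define `b` by choice before applying `cut_pig`).  If some patch `i` heavy for `SL p` and some
    patch `i'` heavy for `SR p` are separated: alternative 3.  Otherwise every heavy patch of `SL p` is
    not separated from every heavy patch of `SR p`.  So for near heavy `g ∈ SR p`:
    `‖a g - a f1‖ < (M+2) δ`; for near heavy `f ∈ SL p`, with one such `g`,
    `‖a f - a f1‖ ≤ ‖a f - a g‖ + ‖a g - a f1‖ < 2 (M + 2) δ`.  So take
    `δ = κ s/(2 (M + 2))` and patch cover constant `ε2 = κ/(4 (M+2) w^1000)`: all these slopes are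
    within `κ s` of `b p` and, `p` being not cut, all these `f`, `g` are in the class of `f1`:
    alternative 4.
-/

namespace CFS

open Finset Classical

private theorem half_small2 {φ : Type*} (F : Finset φ) (q q' : φ → Prop) [DecidablePred q]
    [DecidablePred q']
    (h : F.card ≤ 2 * (F.filter q).card) (hd : ∀ f ∈ F, q f → ¬ q' f) :
    2 * (F.filter q').card ≤ F.card := by
  have h1 : Disjoint (F.filter q) (F.filter q') := by
    rw [Finset.disjoint_left]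
    intro f hf hf'
    rw [Finset.mem_filter] at hf hf'
    exact hd f hf.1 hf.2 hf'.2
  have h2 := Finset.card_union_of_disjoint h1
  have h3 : (F.filter q ∪ F.filter q').card ≤ F.card :=
    Finset.card_le_card (Finset.union_subset (Finset.filter_subset _ _) (Finset.filter_subset _ _))
  omega

theorem ring_pig2 {V φ X : Type*} [NormedAddCommGroup V] (P : Finset X) (SL SR : X → Finset φ)
    (a : φ → V) (v : V) (s w : ℝ) (hs : 0 < s) (hw : 1 ≤ w) :
    ∃ t < 1000, 10 * (P.filter (fun p =>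
      (SL p).card < 50 * ((SL p).filter
        (fun f => w ^ t * s < ‖a f - v‖ ∧ ‖a f - v‖ ≤ w ^ (t + 1) * s)).card ∨
      (SR p).card < 50 * ((SR p).filter
        (fun f => w ^ t * s < ‖a f - v‖ ∧ ‖a f - v‖ ≤ w ^ (t + 1) * s)).card)).card ≤ P.card := by
  obtain ⟨t, ht, hc⟩ := ring_pig (P.disjSum P) (Sum.elim SL SR) a v s w hs hw
  refine ⟨t, ht, ?_⟩
  rw [Finset.card_disjSum] at hc
  obtain ⟨q, hq⟩ : ∃ q : Finset φ → Prop, q = fun A => A.card < 50 * (A.filter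
        (fun f => w ^ t * s < ‖a f - v‖ ∧ ‖a f - v‖ ≤ w ^ (t + 1) * s)).card := ⟨_, rfl⟩
  have h1 : ((P.disjSum P).filter (fun p => ((Sum.elim SL SR) p).card <
      50 * (((Sum.elim SL SR) p).filter
        (fun f => w ^ t * s < ‖a f - v‖ ∧ ‖a f - v‖ ≤ w ^ (t + 1) * s)).card)) =
      (P.filter (fun p => q (SL p))).disjSum (P.filter (fun p => q (SR p))) := by
    ext x
    rcases x with x | x
    · rw [Finset.mem_filter, Finset.inl_mem_disjSum, Finset.inl_mem_disjSum, Finset.mem_filter, hq]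
      rfl
    · rw [Finset.mem_filter, Finset.inr_mem_disjSum, Finset.inr_mem_disjSum, Finset.mem_filter, hq]
      rfl
  rw [h1, Finset.card_disjSum] at hc
  have h2 : (P.filter (fun p =>
      (SL p).card < 50 * ((SL p).filter
        (fun f => w ^ t * s < ‖a f - v‖ ∧ ‖a f - v‖ ≤ w ^ (t + 1) * s)).card ∨
      (SR p).card < 50 * ((SR p).filter
        (fun f => w ^ t * s < ‖a f - v‖ ∧ ‖a f - v‖ ≤ w ^ (t + 1) * s)).card)) ⊆
      (P.filter (fun p => q (SL p))) ∪ (P.filter (fun p => q (SR p))) := by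
    intro p hp
    rw [Finset.mem_filter] at hp
    rw [Finset.mem_union, Finset.mem_filter, Finset.mem_filter, hq]
    rcases hp with ⟨hpP, h | h⟩
    · exact Or.inl ⟨hpP, h⟩
    · exact Or.inr ⟨hpP, h⟩
  have h3 := (Finset.card_le_card h2).trans (Finset.card_union_le _ _)
  omega

theorem split2 (V : Type*) [NormedAddCommGroup V] [NormedSpace ℝ V] [FiniteDimensional ℝ V]
    (M w : ℝ) (hM : 0 ≤ M) (hw : 1 ≤ w) :
    ∃ (J : ℕ) (ζ : ℝ), 0 < ζ ∧ ζ ≤ 1 ∧
    ∀ {φ X : Type} (F : Finset φ) (a : φ → V) (P : Finset X) (SL SR : X → Finset φ),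
      (∀ p ∈ P, SL p ⊆ F) → (∀ p ∈ P, SR p ⊆ F) →
      (∀ p ∈ P, (SL p).Nonempty) → (∀ p ∈ P, (SR p).Nonempty) →
      (∀ v : V, 2 * (F.filter (fun f => a f = v)).card < F.card) →
      ∃ (f0 : φ) (R δ : ℝ) (pat : φ → ℕ) (cls : φ → ℕ) (Ex : Finset X),
        f0 ∈ F ∧ 0 < R ∧ 0 < δ ∧ (∀ f ∈ F, pat f < J) ∧
        (∀ f ∈ F, ∀ g ∈ F, ‖a f - a f0‖ ≤ R → ‖a g - a f0‖ ≤ R → pat f = pat g →
          ‖a f - a g‖ ≤ δ) ∧
        (∀ c : ℕ, 2 * (F.filter (fun f => cls f = c)).card ≤ F.card) ∧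
        Ex ⊆ P ∧ 20 * Ex.card ≤ 3 * P.card ∧
        ∀ p ∈ P, p ∉ Ex →
          (ζ * (SL p).card ≤ (((SL p).filter (fun f => ‖a f - a f0‖ ≤ R)).card : ℝ) ∧
            ζ * (SR p).card ≤ (((SR p).filter (fun f => w * R < ‖a f - a f0‖)).card : ℝ)) ∨
          (ζ * (SL p).card ≤ (((SL p).filter (fun f => w * R < ‖a f - a f0‖)).card : ℝ) ∧
            ζ * (SR p).card ≤ (((SR p).filter (fun f => ‖a f - a f0‖ ≤ R)).card : ℝ)) ∨
          (∃ i < J, ∃ i' < J,
            (∀ f ∈ F, ∀ g ∈ F, ‖a f - a f0‖ ≤ R → ‖a g - a f0‖ ≤ R → pat f = i → pat g = i' →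
              M * δ ≤ ‖a f - a g‖) ∧
            ζ * (SL p).card ≤
              (((SL p).filter (fun f => ‖a f - a f0‖ ≤ R ∧ pat f = i)).card : ℝ) ∧
            ζ * (SR p).card ≤
              (((SR p).filter (fun f => ‖a f - a f0‖ ≤ R ∧ pat f = i')).card : ℝ)) ∨
          (∃ c : ℕ, 9 * (SL p).card ≤ 10 * ((SL p).filter (fun f => cls f = c)).card ∧
            9 * (SR p).card ≤ 10 * ((SR p).filter (fun f => cls f = c)).card) := by
  have hwT : 0 < w ^ 1000 := by positivity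
  obtain ⟨J1, c1, hc1⟩ := cover_unit V (1 / (8 * w ^ 1000)) (by positivity)
  obtain ⟨κ, hκ⟩ : ∃ κ : ℝ, κ = 1 / (24 * (20 * (J1 : ℝ) + 1)) := ⟨_, rfl⟩
  have hκ0 : 0 < κ := by rw [hκ]; positivity
  obtain ⟨J2, c2, hc2⟩ := cover_unit V (κ / (4 * (M + 2) * w ^ 1000)) (by positivity)
  have hJ2 : 1 ≤ J2 := by
    obtain ⟨i, hi, _⟩ := hc2 0 (by simp)
    omega
  have hJ2' : (1 : ℝ) ≤ (J2 : ℝ) := by exact_mod_cast hJ2
  refine ⟨J2, 1 / (25 * (J2 : ℝ)), by positivity, ?_, ?_⟩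
  · rw [div_le_one (by positivity)]
    linarith
  obtain ⟨ζ, hζ⟩ : ∃ ζ : ℝ, ζ = 1 / (25 * (J2 : ℝ)) := ⟨_, rfl⟩
  rw [← hζ]
  intro φ X F a P SL SR hSL hSR hLne hRne hatom
  obtain ⟨s, hs, f0, hf0, hf0c, hsm⟩ := min_radius F a hatom
  obtain ⟨t, ht, hring⟩ := ring_pig2 P SL SR a (a f0) s w hs hw
  obtain ⟨v, hv⟩ : ∃ v : V, v = a f0 := ⟨_, rfl⟩
  rw [← hv] at hf0c hring
  obtain ⟨R, hR⟩ : ∃ R : ℝ, R = w ^ t * s := ⟨_, rfl⟩
  have hwR : w ^ (t + 1) * s = w * R := by rw [hR]; ring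
  rw [← hR, hwR] at hring
  have hsR : s ≤ R := by
    rw [hR]
    exact le_mul_of_one_le_left hs.le (one_le_pow₀ hw)
  have hR0 : 0 < R := hs.trans_le hsR
  have hRT : R ≤ w ^ 1000 * s := by
    rw [hR]
    exact mul_le_mul_of_nonneg_right (pow_le_pow_right₀ hw ht.le) hs.le
  obtain ⟨δ, hδ⟩ : ∃ δ : ℝ, δ = κ * s / (2 * (M + 2)) := ⟨_, rfl⟩
  have hδ0 : 0 < δ := by rw [hδ]; positivity
  have hδe : 2 * (M + 2) * δ = κ * s := by rw [hδ]; field_simp
  -- patches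
  have hpatex : ∀ f : φ, ∃ i, i < J2 ∧
      (‖a f - v‖ ≤ R → ‖R⁻¹ • (a f - v) - c2 i‖ ≤ κ / (4 * (M + 2) * w ^ 1000)) := by
    intro f
    by_cases hf : ‖a f - v‖ ≤ R
    · obtain ⟨i, hi, hi'⟩ := hc2 (R⁻¹ • (a f - v)) (by
        rw [norm_smul, norm_inv, Real.norm_of_nonneg hR0.le, inv_mul_le_iff₀ hR0, mul_one]
        exact hf)
      exact ⟨i, hi, fun _ => hi'⟩
    · exact ⟨0, hJ2, fun h => absurd h hf⟩
  choose pat hpatJ hpat using hpatex
  have hnrm : ∀ x : V, ∀ c : V, ‖x - (v + R • c)‖ = R * ‖R⁻¹ • (x - v) - c‖ := by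
    intro x c
    have e : x - (v + R • c) = R • (R⁻¹ • (x - v) - c) := by
      rw [smul_sub, smul_smul, mul_inv_cancel₀ hR0.ne', one_smul]
      abel
    rw [e, norm_smul, Real.norm_of_nonneg hR0.le]
  have hsame : ∀ f g : φ, ‖a f - v‖ ≤ R → ‖a g - v‖ ≤ R → pat f = pat g → ‖a f - a g‖ ≤ δ := by
    intro f g hf hg hfg
    have h1 := hpat f hf
    have h2 := hpat g hg
    rw [← hfg] at h2
    have h3 : ‖a f - a g‖ ≤ R * (κ / (4 * (M + 2) * w ^ 1000)) + R * (κ / (4 * (M + 2) * w ^ 1000)) := by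
      calc ‖a f - a g‖ = ‖(a f - (v + R • c2 (pat f))) - (a g - (v + R • c2 (pat f)))‖ := by
            congr 1; abel
        _ ≤ ‖a f - (v + R • c2 (pat f))‖ + ‖a g - (v + R • c2 (pat f))‖ := norm_sub_le _ _
        _ ≤ _ := by
            rw [hnrm, hnrm]
            exact add_le_add (mul_le_mul_of_nonneg_left h1 hR0.le) (mul_le_mul_of_nonneg_left h2 hR0.le)
    refine h3.trans ?_
    have h4 : R * (κ / (4 * (M + 2) * w ^ 1000)) + R * (κ / (4 * (M + 2) * w ^ 1000)) =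
        R / w ^ 1000 * (κ / (2 * (M + 2))) := by
      field_simp
      ring
    have h5 : δ = s * (κ / (2 * (M + 2))) := by rw [hδ]; ring
    rw [h4, h5]
    refine mul_le_mul_of_nonneg_right ?_ (by positivity)
    rw [div_le_iff₀ hwT]
    linarith
  -- centres
  have hcen : ∀ f : φ, ‖a f - v‖ ≤ R → ∃ i, i < J1 ∧ ‖a f - (v + R • c1 i)‖ ≤ s / 8 := by
    intro f hf
    obtain ⟨i, hi, hi'⟩ := hc1 (R⁻¹ • (a f - v)) (by
      rw [norm_smul, norm_inv, Real.norm_of_nonneg hR0.le, inv_mul_le_iff₀ hR0, mul_one]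
      exact hf)
    refine ⟨i, hi, ?_⟩
    rw [hnrm]
    calc R * ‖R⁻¹ • (a f - v) - c1 i‖ ≤ R * (1 / (8 * w ^ 1000)) :=
          mul_le_mul_of_nonneg_left hi' hR0.le
      _ ≤ (w ^ 1000 * s) * (1 / (8 * w ^ 1000)) :=
          mul_le_mul_of_nonneg_right hRT (by positivity)
      _ = s / 8 := by field_simp
  have hbex : ∀ p : X, ∃ b : V, (∃ f ∈ SL p, ‖a f - v‖ ≤ R ∧
      ζ * (SL p).card ≤ (((SL p).filter (fun g => ‖a g - v‖ ≤ R ∧ pat g = pat f)).card : ℝ)) →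
      ∃ f ∈ SL p, ‖a f - v‖ ≤ R ∧
      ζ * (SL p).card ≤ (((SL p).filter (fun g => ‖a g - v‖ ≤ R ∧ pat g = pat f)).card : ℝ) ∧
      b = a f := by
    intro p
    by_cases h : ∃ f ∈ SL p, ‖a f - v‖ ≤ R ∧
      ζ * (SL p).card ≤ (((SL p).filter (fun g => ‖a g - v‖ ≤ R ∧ pat g = pat f)).card : ℝ)
    · obtain ⟨f, h1, h2, h3⟩ := h
      exact ⟨a f, fun _ => ⟨f, h1, h2, h3, rfl⟩⟩
    · exact ⟨0, fun h' => absurd h' h⟩
  choose b hb using hbex
  obtain ⟨r, hr1, hr2, hcut⟩ := cut_pig J1 κ hκ P b (fun i => v + R • c1 i) s hs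
  obtain ⟨cls, hcls⟩ : ∃ cls : φ → ℕ, cls = fun f =>
      if w * R < ‖a f - v‖ then 0 else if ‖a f - v‖ ≤ R then
        sInf {i | i < J1 ∧ ‖a f - (v + R • c1 i)‖ ≤ r} + 2 else 1 := ⟨_, rfl⟩
  have hRw : R ≤ w * R := le_mul_of_one_le_left hR0.le hw
  have hclsfar : ∀ f, w * R < ‖a f - v‖ → cls f = 0 := by
    intro f hf
    rw [hcls]
    exact if_pos hf
  have hclsnear : ∀ f, ‖a f - v‖ ≤ R →
      cls f = sInf {i | i < J1 ∧ ‖a f - (v + R • c1 i)‖ ≤ r} + 2 := by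
    intro f hf
    rw [hcls]
    show (if w * R < ‖a f - v‖ then 0 else if ‖a f - v‖ ≤ R then
        sInf {i | i < J1 ∧ ‖a f - (v + R • c1 i)‖ ≤ r} + 2 else 1) = _
    rw [if_neg (not_lt.2 (hf.trans hRw)), if_pos hf]
  have hcls0 : ∀ f, cls f = 0 → w * R < ‖a f - v‖ := by
    intro f hf
    by_contra hn
    rw [hcls] at hf
    change (if w * R < ‖a f - v‖ then 0 else if ‖a f - v‖ ≤ R then
        sInf {i | i < J1 ∧ ‖a f - (v + R • c1 i)‖ ≤ r} + 2 else 1) = 0 at hf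
    rw [if_neg hn] at hf
    split_ifs at hf
  have hcls1 : ∀ f, cls f = 1 → ¬ ‖a f - v‖ ≤ R := by
    intro f hf hn
    rw [hclsnear f hn] at hf
    omega
  have hcls2 : ∀ f i, cls f = i + 2 → ‖a f - (v + R • c1 i)‖ ≤ r := by
    intro f i hf
    by_cases hfar : w * R < ‖a f - v‖
    · rw [hclsfar f hfar] at hf
      omega
    by_cases hnear : ‖a f - v‖ ≤ R
    · rw [hclsnear f hnear] at hf
      have h1 : sInf {i | i < J1 ∧ ‖a f - (v + R • c1 i)‖ ≤ r} = i := by omega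
      obtain ⟨i', hi', hi''⟩ := hcen f hnear
      have h2 : sInf {i | i < J1 ∧ ‖a f - (v + R • c1 i)‖ ≤ r} ∈
          {i | i < J1 ∧ ‖a f - (v + R • c1 i)‖ ≤ r} :=
        Nat.sInf_mem ⟨i', hi', hi''.trans hr1⟩
      rw [h1] at h2
      exact h2.2
    · rw [hcls] at hf
      change (if w * R < ‖a f - v‖ then 0 else if ‖a f - v‖ ≤ R then
        sInf {i | i < J1 ∧ ‖a f - (v + R • c1 i)‖ ≤ r} + 2 else 1) = i + 2 at hf
      rw [if_neg hfar, if_neg hnear] at hf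
      omega
  have hhalf : F.card ≤ 2 * (F.filter (fun f => ‖a f - v‖ ≤ R)).card := by
    refine hf0c.trans (Nat.mul_le_mul_left 2 (Finset.card_le_card ?_))
    intro f hf
    rw [Finset.mem_filter] at hf ⊢
    exact ⟨hf.1, hf.2.trans hsR⟩
  obtain ⟨E1, hE1⟩ : ∃ E1 : Finset X, E1 = P.filter (fun p =>
      (SL p).card < 50 * ((SL p).filter (fun f => R < ‖a f - v‖ ∧ ‖a f - v‖ ≤ w * R)).card ∨
      (SR p).card < 50 * ((SR p).filter (fun f => R < ‖a f - v‖ ∧ ‖a f - v‖ ≤ w * R)).card) :=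
    ⟨_, rfl⟩
  obtain ⟨E2, hE2⟩ : ∃ E2 : Finset X, E2 = P.filter (fun p => ∃ i < J1,
      |‖b p - (v + R • c1 i)‖ - r| ≤ κ * s) := ⟨_, rfl⟩
  rw [← hE1] at hring
  have hcut' : 20 * E2.card ≤ P.card := by rw [hE2]; exact hcut
  refine ⟨f0, R, δ, pat, cls, E1 ∪ E2, hf0, hR0, hδ0, fun f _ => hpatJ f, ?_⟩
  rw [← hv]
  refine ⟨fun f _ g _ hf hg hfg => hsame f g hf hg hfg, ?_, ?_, ?_, ?_⟩
  · intro c
    rcases c with _ | _ | i
    · exact half_small2 F _ _ hhalf fun f _ hf h0 => not_lt.2 (hf.trans hRw) (hcls0 f h0)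
    · exact half_small2 F _ _ hhalf fun f _ hf h1 => hcls1 f h1 hf
    · refine le_trans (Nat.mul_le_mul_left 2 (Finset.card_le_card ?_))
        (ball_small F a s hs hsm (v + R • c1 i) r hr2)
      intro f hf
      rw [Finset.mem_filter] at hf ⊢
      exact ⟨hf.1, hcls2 f i hf.2⟩
  · rw [hE1, hE2]
    exact Finset.union_subset (Finset.filter_subset _ _) (Finset.filter_subset _ _)
  · have h1 := Finset.card_union_le E1 E2
    omega
  intro p hpP hpE
  have hpE1 : p ∉ E1 := fun h => hpE (Finset.mem_union_left _ h)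
  have hpE2 : p ∉ E2 := fun h => hpE (Finset.mem_union_right _ h)
  have hringeq : ∀ A : Finset φ, (A.filter (fun f => ¬ ‖a f - v‖ ≤ R ∧ ¬ w * R < ‖a f - v‖)) =
        (A.filter (fun f => R < ‖a f - v‖ ∧ ‖a f - v‖ ≤ w * R)) := by
    intro A
    refine Finset.filter_congr fun f _ => ?_
    rw [not_le, not_lt]
  have hringL : 50 * ((SL p).filter (fun f => ¬ ‖a f - v‖ ≤ R ∧ ¬ w * R < ‖a f - v‖)).card ≤
      (SL p).card := by
    by_contra hn
    apply hpE1
    rw [hE1, Finset.mem_filter]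
    refine ⟨hpP, Or.inl ?_⟩
    rw [← hringeq]
    omega
  have hringR : 50 * ((SR p).filter (fun f => ¬ ‖a f - v‖ ≤ R ∧ ¬ w * R < ‖a f - v‖)).card ≤
      (SR p).card := by
    by_contra hn
    apply hpE1
    rw [hE1, Finset.mem_filter]
    refine ⟨hpP, Or.inr ?_⟩
    rw [← hringeq]
    omega
  have hζ1 : ζ ≤ 9 / 10 := by
    rw [hζ, div_le_iff₀ (by positivity)]
    linarith
  have hzle : ∀ (A B : Finset φ), 9 * A.card ≤ 10 * B.card → ζ * (A.card : ℝ) ≤ (B.card : ℝ) := by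
    intro A B hAB
    have h1 : (9 : ℝ) * A.card ≤ 10 * B.card := by exact_mod_cast hAB
    have h2 : ζ * (A.card : ℝ) ≤ 9 / 10 * A.card :=
      mul_le_mul_of_nonneg_right hζ1 (Nat.cast_nonneg _)
    linarith
  have hheavy : ∀ (A : Finset φ), 9 * A.card ≤ 10 * (A.filter (fun f => ‖a f - v‖ ≤ R ∧
      ζ * A.card ≤ ((A.filter (fun g => ‖a g - v‖ ≤ R ∧ pat g = pat f)).card : ℝ))).card →
      ζ * (A.card : ℝ) ≤ ((A.filter (fun f => ‖a f - v‖ ≤ R)).card : ℝ) := by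
    intro A hA
    apply hzle
    refine hA.trans (Nat.mul_le_mul_left 10 (Finset.card_le_card ?_))
    intro f hf
    rw [Finset.mem_filter] at hf ⊢
    exact ⟨hf.1, hf.2.1⟩
  rcases dich (SL p) (fun f => ‖a f - v‖ ≤ R) (fun f => w * R < ‖a f - v‖) pat J2 ζ hJ2 hζ
    (fun f hf => not_lt.2 (hf.trans hRw)) (fun f _ _ => hpatJ f) hringL with hL | hL | hL
  · rcases dich (SR p) (fun f => ‖a f - v‖ ≤ R) (fun f => w * R < ‖a f - v‖) pat J2 ζ hJ2 hζ
      (fun f hf => not_lt.2 (hf.trans hRw)) (fun f _ _ => hpatJ f) hringR with h | h | h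
    · exact Or.inl ⟨hL.1, h.2⟩
    · exact Or.inl ⟨hL.1, hzle _ _ h⟩
    · exact Or.inr (Or.inl ⟨hL.2, hheavy _ h⟩)
  · rcases dich (SR p) (fun f => ‖a f - v‖ ≤ R) (fun f => w * R < ‖a f - v‖) pat J2 ζ hJ2 hζ
      (fun f hf => not_lt.2 (hf.trans hRw)) (fun f _ _ => hpatJ f) hringR with h | h | h
    · exact Or.inr (Or.inl ⟨hzle _ _ hL, h.1⟩)
    · refine Or.inr (Or.inr (Or.inr ⟨0, ?_, ?_⟩))
      · refine hL.trans (Nat.mul_le_mul_left 10 (Finset.card_le_card ?_))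
        intro f hf
        rw [Finset.mem_filter] at hf ⊢
        exact ⟨hf.1, hclsfar f hf.2⟩
      · refine h.trans (Nat.mul_le_mul_left 10 (Finset.card_le_card ?_))
        intro f hf
        rw [Finset.mem_filter] at hf ⊢
        exact ⟨hf.1, hclsfar f hf.2⟩
    · exact Or.inr (Or.inl ⟨hzle _ _ hL, hheavy _ h⟩)
  · rcases dich (SR p) (fun f => ‖a f - v‖ ≤ R) (fun f => w * R < ‖a f - v‖) pat J2 ζ hJ2 hζ
      (fun f hf => not_lt.2 (hf.trans hRw)) (fun f _ _ => hpatJ f) hringR with h | h | h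
    · exact Or.inl ⟨hheavy _ hL, h.2⟩
    · exact Or.inl ⟨hheavy _ hL, hzle _ _ h⟩
    have hex : ∀ A : Finset φ, A.Nonempty → 9 * A.card ≤ 10 * (A.filter (fun f => ‖a f - v‖ ≤ R ∧
        ζ * A.card ≤ ((A.filter (fun g => ‖a g - v‖ ≤ R ∧ pat g = pat f)).card : ℝ))).card →
        ∃ f ∈ A, ‖a f - v‖ ≤ R ∧
        ζ * A.card ≤ ((A.filter (fun g => ‖a g - v‖ ≤ R ∧ pat g = pat f)).card : ℝ) := by
      intro A hA h9
      have hA0 := Finset.card_pos.2 hA
      have h1 : 0 < (A.filter (fun f => ‖a f - v‖ ≤ R ∧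
          ζ * A.card ≤ ((A.filter (fun g => ‖a g - v‖ ≤ R ∧ pat g = pat f)).card : ℝ))).card := by
        omega
      obtain ⟨f, hf⟩ := Finset.card_pos.1 h1
      rw [Finset.mem_filter] at hf
      exact ⟨f, hf.1, hf.2⟩
    obtain ⟨f1, hf1S, hf1n, hf1h, hbf1⟩ := hb p (hex (SL p) (hLne p hpP) hL)
    obtain ⟨g1, hg1S, hg1n, hg1h⟩ := hex (SR p) (hRne p hpP) h
    by_cases hsec : ∃ i < J2, ∃ i' < J2,
            (∀ f ∈ F, ∀ g ∈ F, ‖a f - v‖ ≤ R → ‖a g - v‖ ≤ R → pat f = i → pat g = i' →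
              M * δ ≤ ‖a f - a g‖) ∧
            ζ * (SL p).card ≤ (((SL p).filter (fun f => ‖a f - v‖ ≤ R ∧ pat f = i)).card : ℝ) ∧
            ζ * (SR p).card ≤ (((SR p).filter (fun f => ‖a f - v‖ ≤ R ∧ pat f = i')).card : ℝ)
    · exact Or.inr (Or.inr (Or.inl hsec))
    have hclose : ∀ f g, ‖a f - v‖ ≤ R → ‖a g - v‖ ≤ R →
        ζ * (SL p).card ≤
          (((SL p).filter (fun f' => ‖a f' - v‖ ≤ R ∧ pat f' = pat f)).card : ℝ) →
        ζ * (SR p).card ≤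
          (((SR p).filter (fun f' => ‖a f' - v‖ ≤ R ∧ pat f' = pat g)).card : ℝ) →
        ‖a f - a g‖ < (M + 2) * δ := by
      intro f g hfn hgn hfh hgh
      have hns : ¬ ∀ x ∈ F, ∀ y ∈ F, ‖a x - v‖ ≤ R → ‖a y - v‖ ≤ R → pat x = pat f →
          pat y = pat g → M * δ ≤ ‖a x - a y‖ := fun hall =>
        hsec ⟨pat f, hpatJ f, pat g, hpatJ g, hall, hfh, hgh⟩
      push Not at hns
      obtain ⟨x, hx, y, hy, hxn, hyn, hxp, hyp, hlt⟩ := hns
      have h1 := hsame f x hfn hxn hxp.symm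
      have h2 := hsame y g hyn hgn hyp
      calc ‖a f - a g‖ = ‖(a f - a x) + (a x - a y) + (a y - a g)‖ := by congr 1; abel
        _ ≤ ‖(a f - a x) + (a x - a y)‖ + ‖a y - a g‖ := norm_add_le _ _
        _ ≤ ‖a f - a x‖ + ‖a x - a y‖ + ‖a y - a g‖ := by
            have := norm_add_le (a f - a x) (a x - a y)
            linarith
        _ < (M + 2) * δ := by linarith
    have hMδ : 0 ≤ (M + 2) * δ := by positivity
    have hsetcls : ∀ f, ‖a f - v‖ ≤ R → ‖a f - a f1‖ < κ * s → cls f = cls f1 := by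
      intro f hfn hfc
      have hset : {i | i < J1 ∧ ‖a f - (v + R • c1 i)‖ ≤ r} =
          {i | i < J1 ∧ ‖a f1 - (v + R • c1 i)‖ ≤ r} := by
        ext i
        rw [Set.mem_ofPred_eq, Set.mem_ofPred_eq]
        refine and_congr_right fun hi => ?_
        have h1 : κ * s < |‖a f1 - (v + R • c1 i)‖ - r| := by
          by_contra hn
          apply hpE2
          rw [hE2, Finset.mem_filter]
          refine ⟨hpP, i, hi, ?_⟩
          rw [hbf1]
          exact not_lt.1 hn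
        have h2 : |‖a f - (v + R • c1 i)‖ - ‖a f1 - (v + R • c1 i)‖| ≤ ‖a f - a f1‖ := by
          have h3 := abs_norm_sub_norm_le (a f - (v + R • c1 i)) (a f1 - (v + R • c1 i))
          have e : a f - (v + R • c1 i) - (a f1 - (v + R • c1 i)) = a f - a f1 := by abel
          rwa [e] at h3
        have h4 := abs_le.1 h2
        constructor
        · intro h5
          by_contra h6
          rw [abs_of_pos (by linarith [not_le.1 h6])] at h1
          linarith [h4.1]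
        · intro h5
          rw [abs_of_nonpos (by linarith)] at h1
          linarith [h4.2]
      rw [hclsnear f hfn, hclsnear f1 hf1n, hset]
    refine Or.inr (Or.inr (Or.inr ⟨cls f1, ?_, ?_⟩))
    · refine hL.trans (Nat.mul_le_mul_left 10 (Finset.card_le_card ?_))
      intro f hf
      rw [Finset.mem_filter] at hf ⊢
      obtain ⟨hfS, hfn, hfh⟩ := hf
      refine ⟨hfS, hsetcls f hfn ?_⟩
      have h1 := hclose f g1 hfn hg1n hfh hg1h
      have h2 := hclose f1 g1 hf1n hg1n hf1h hg1h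
      rw [norm_sub_rev] at h2
      calc ‖a f - a f1‖ = ‖(a f - a g1) + (a g1 - a f1)‖ := by congr 1; abel
        _ ≤ ‖a f - a g1‖ + ‖a g1 - a f1‖ := norm_add_le _ _
        _ < κ * s := by rw [← hδe]; linarith
    · refine h.trans (Nat.mul_le_mul_left 10 (Finset.card_le_card ?_))
      intro g hg
      rw [Finset.mem_filter] at hg ⊢
      obtain ⟨hgS, hgn, hgh⟩ := hg
      refine ⟨hgS, hsetcls g hgn ?_⟩
      have h2 := hclose f1 g hf1n hgn hf1h hgh
      rw [norm_sub_rev] at h2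
      rw [← hδe]
      linarith

end CFS
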