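import Pool.Agent.CFS.B.BMono
import Pool.Agent.CFS.B.Split2
import Pool.Agent.CFS.B.BArith
import Pool.Agent.CFS.Triv
import Pool.Agent.CFS.IndB

/-!
# Module CFSB-Step: induction step over the blocks (inside: strong induction on `|I|`)

Compare `CFS/Induct.lean` (the one-colour version of the same argument; its proof can be adapted).

Plan.  Given `Good (insert t B)` with constant `A1` (`≥ 1`); `(J, ζ)` from `split2 (V t) M w`.
`ρ0 = 20 + 2/ζ`, `C3 = (2 + J²) A1 (1/ζ³ + 2/ζ) + 5`, `A = 2 ρ0 + 7 C3`.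
Claim (strong induction on `N = |I|`, for all data): for `ρ ≥ 2`
`|P| ≤ A (N²/ρ³) + 2 (N/ρ)`; it implies `Good B` with constant `A + 2`.
`SL p = {i ∈ I : inc p i ∧ Lf i}`, `SR p` similarly; `|SL p ∩ SL q| ≤ 1` by `Fam.one`.
* `ρ ≤ ρ0`: `triv2` (for `SL`).  `2N ≤ ρ²`: `triv1`.
* otherwise `ρ ≥ ρ0 ≥ 20`, `2N > ρ²`.
  (a) some `v` has `N ≤ 2 #{i : a t i = v}`: `I' = {i ∈ I : a t i ≠ v}`, `2|I'| ≤ N`, `|I'| < N`; by `Fam.ne` each
  `p ∈ P` lies on at most one `i ∈ I` with `a t i = v`, so `p` is `(ρ-1)`-rich in `I'` for both colours;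
  induction (with `fam_mono`, `sepA_mono`) and `atom_arith`.
  (b) otherwise `split2` gives `i0 := f0, R, δ, pat, cls, Ex`.
  `P1` = points `∉ Ex` of kind 1: `Good (insert t B)` for `I`, `P1`, `Lf' = (Lf ∧ ‖a t i - a t i0‖ ≤ R)`,
  `Rf' = (Rf ∧ w R < ‖a t i - a t i0‖)`, `ζ ρ ≥ 2`: the separation of the block `t` is `Fam.nf ..|>.1` for `P' = P1`
  (each `p ∈ P1` has a near surface since `ζ |SL p| > 0`) and `sepA_mono`; the other blocks by `sepA_mono`.
  So `|P1| ≤ A1 (N²/(ζρ)³ + N/(ζρ))`.  Kind 2: the same with `.2`.  Kind 3, for each pair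
  `(i, i')` of patches: if the set is nonempty the pair is separated and `Fam.nn` applies with
  `Q1 k = (‖a t k - a t i0‖ ≤ R ∧ pat k = i)`, `Q2` similarly (on `P`, then `sepA_mono`).
  Kind 4, class `c`: `I c = {k ∈ I : cls k = c}`, `2 |I c| ≤ N`, `(9/10) ρ`-rich in both colours;
  induction; only `c ∈ I.image cls` occur (`SL p` nonempty); sum with `class_sum` (`IndB`, with
  `ρ := (9/10) ρ`).
  Total: `|P| ≤ |Ex| + |P1| + |P1'| + Σ_{i,i'} |P2 i i'| + Σ_c |P3 c|`, then `b_arith`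
  (`2 + J²` terms `A1 (N²/(ζρ)³ + N/(ζρ))`).
-/

noncomputable section

namespace CFS

open Finset Classical

/-- the surfaces of `I` through `p` with the property `Lf` -/
private def SS {ι X : Type} (inc : X → ι → Prop) (I : Finset ι) (Lf : ι → Prop) (p : X) :
    Finset ι := I.filter (fun i => inc p i ∧ Lf i)

private theorem SS_sub {ι X : Type} (inc : X → ι → Prop) (I : Finset ι) (Lf : ι → Prop) (p : X) :
    SS inc I Lf p ⊆ I := filter_subset _ _

private theorem memf {α : Type} {S : Finset α} {Q : α → Prop} {d : DecidablePred Q} {x : α} :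
    x ∈ @Finset.filter α Q d S ↔ x ∈ S ∧ Q x := @mem_filter α Q d S x

private theorem SS_card {ι X : Type} (inc : X → ι → Prop) (I : Finset ι) (Lf Q : ι → Prop)
    (p : X) (d : DecidablePred Q) (d' : DecidablePred fun i => inc p i ∧ (Lf i ∧ Q i)) :
    (@Finset.filter ι Q d (SS inc I Lf p)).card =
      (@Finset.filter ι (fun i => inc p i ∧ (Lf i ∧ Q i)) d' I).card := by
  refine congrArg Finset.card (Finset.ext fun i => ?_)
  rw [memf, memf, SS, memf, and_assoc, and_assoc]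

private theorem SS_card' {ι X : Type} (inc : X → ι → Prop) (I : Finset ι) (Lf Q : ι → Prop)
    (p : X) (d d'' : DecidablePred Q) (d' : DecidablePred fun i => inc p i ∧ Lf i) :
    (@Finset.filter ι Q d (SS inc I Lf p)).card =
      (@Finset.filter ι (fun i => inc p i ∧ Lf i) d' (@Finset.filter ι Q d'' I)).card := by
  refine congrArg Finset.card (Finset.ext fun i => ?_)
  rw [memf, memf, memf, SS, memf]
  exact and_right_comm

section
variable {κ : Type} {L : κ → ℕ} {V : κ → Type} [∀ t, NormedAddCommGroup (V t)]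
  {M w : ℝ} {ι X : Type} {inc : X → ι → Prop} {pt : X → (t : κ) → W (L t)}
  {a : (t : κ) → ι → V t} {I : Finset ι} {P : Finset X}

private theorem SS_one (hF : Fam L V M w inc pt a I P) (Lf : ι → Prop) :
    ∀ p ∈ P, ∀ q ∈ P, p ≠ q → (SS inc I Lf p ∩ SS inc I Lf q).card ≤ 1 := by
  intro p hp q hq hpq
  rw [card_le_one]
  intro i hi j hj
  obtain ⟨hi1, hi2⟩ := mem_inter.1 hi
  obtain ⟨hj1, hj2⟩ := mem_inter.1 hj
  have hi1' := mem_filter.1 hi1
  have hi2' := mem_filter.1 hi2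
  have hj1' := mem_filter.1 hj1
  have hj2' := mem_filter.1 hj2
  exact hF.one p hp q hq hpq i hi1'.1 j hj1'.1 hi1'.2.1 hi2'.2.1 hj1'.2.1 hj2'.2.1

/-- at most one surface through a point has slope `v` in the block `t` -/
private theorem atom_rich (hF : Fam L V M w inc pt a I P) (Lf : ι → Prop) (t : κ) (v : V t)
    {ρ : ℝ} {p : X} (hp : p ∈ P) (h : ρ ≤ ((SS inc I Lf p).card : ℝ)) :
    ρ - 1 ≤ (((I.filter (fun i => ¬ a t i = v)).filter (fun i => inc p i ∧ Lf i)).card : ℝ) := by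
  rw [← SS_card' inc I Lf (fun i => ¬ a t i = v) p (fun i => instDecidableNot)]
  have h1 := card_filter_add_card_filter_not (s := SS inc I Lf p) (fun i => a t i = v)
  have h2 : ((SS inc I Lf p).filter (fun i => a t i = v)).card ≤ 1 := by
    rw [card_le_one]
    intro i hi j hj
    obtain ⟨hi1, hi2⟩ := mem_filter.1 hi
    obtain ⟨hj1, hj2⟩ := mem_filter.1 hj
    by_contra hij
    exact hF.ne t p hp i (mem_filter.1 hi1).1 j (mem_filter.1 hj1).1 hij (mem_filter.1 hi1).2.1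
      (mem_filter.1 hj1).2.1 (hi2.trans hj2.symm)
  have h3 : (((SS inc I Lf p).filter (fun i => a t i = v)).card : ℝ) ≤ 1 := by exact_mod_cast h2
  have h4 : (((SS inc I Lf p).filter (fun i => a t i = v)).card : ℝ) +
      (((SS inc I Lf p).filter (fun i => ¬ a t i = v)).card : ℝ) =
        ((SS inc I Lf p).card : ℝ) := by exact_mod_cast h1
  linarith

/-- the points of one kind: application of the hypothesis for `insert t B` -/
private theorem kind {B : Finset κ} {t : κ} {A1 : ℝ}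
    (H1 : ∀ {ι X : Type} (inc : X → ι → Prop) (pt : X → (t : κ) → W (L t))
      (a : (t : κ) → ι → V t) (I : Finset ι) (P : Finset X) (Lf Rf : ι → Prop) (ρ : ℝ),
      Fam L V M w inc pt a I P →
      (∀ s ∈ insert t B, SepA inc (fun p => pt p s) I Lf Rf P) → 2 ≤ ρ →
      (∀ p ∈ P, ρ ≤ ((I.filter (fun i => inc p i ∧ Lf i)).card : ℝ)) →
      (∀ p ∈ P, ρ ≤ ((I.filter (fun i => inc p i ∧ Rf i)).card : ℝ)) →
      (P.card : ℝ) ≤ A1 * ((I.card : ℝ) ^ 2 / ρ ^ 3 + I.card / ρ))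
    (hF : Fam L V M w inc pt a I P) {Lf Rf : ι → Prop}
    (hB : ∀ s ∈ B, SepA inc (fun p => pt p s) I Lf Rf P) {ρ ζ : ℝ} (hζ : 0 < ζ)
    (hζρ : 2 ≤ ζ * ρ) (hL : ∀ p ∈ P, ρ ≤ ((SS inc I Lf p).card : ℝ))
    (hR : ∀ p ∈ P, ρ ≤ ((SS inc I Rf p).card : ℝ)) (Q1 Q2 : ι → Prop) (d1 : DecidablePred Q1)
    (d2 : DecidablePred Q2) (P1 : Finset X)
    (hP1 : P1 ⊆ P) (hsep : SepA inc (fun p => pt p t) I Q1 Q2 P1)
    (h1 : ∀ p ∈ P1, ζ * (SS inc I Lf p).card ≤
      ((@Finset.filter ι Q1 d1 (SS inc I Lf p)).card : ℝ))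
    (h2 : ∀ p ∈ P1, ζ * (SS inc I Rf p).card ≤
      ((@Finset.filter ι Q2 d2 (SS inc I Rf p)).card : ℝ)) :
    (P1.card : ℝ) ≤ A1 * ((I.card : ℝ) ^ 2 / (ζ * ρ) ^ 3 + I.card / (ζ * ρ)) := by
  refine H1 inc pt a I P1 (fun i => Lf i ∧ Q1 i) (fun i => Rf i ∧ Q2 i) (ζ * ρ)
    (fam_mono hF (Finset.Subset.refl _) hP1) ?_ hζρ ?_ ?_
  · intro s hs
    rcases mem_insert.1 hs with rfl | hs
    · exact sepA_mono hsep (Finset.Subset.refl _) (Finset.Subset.refl _) (fun i _ h => h.2)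
        (fun i _ h => h.2)
    · exact sepA_mono (hB s hs) (Finset.Subset.refl _) hP1 (fun i _ h => h.1) (fun i _ h => h.1)
  · intro p hp
    rw [← SS_card inc I Lf Q1 p d1]
    exact (mul_le_mul_of_nonneg_left (hL p (hP1 hp)) hζ.le).trans (h1 p hp)
  · intro p hp
    rw [← SS_card inc I Rf Q2 p d2]
    exact (mul_le_mul_of_nonneg_left (hR p (hP1 hp)) hζ.le).trans (h2 p hp)

end

private theorem exists_of_card {ι : Type} {S : Finset ι} {Q : ι → Prop} {d : DecidablePred Q}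
    {ζ ρ : ℝ} (hζρ : 2 ≤ ζ * ρ) (hζ : 0 < ζ) (hS : ρ ≤ (S.card : ℝ))
    (h : ζ * S.card ≤ ((@Finset.filter ι Q d S).card : ℝ)) : ∃ i ∈ S, Q i := by
  have h1 : (0 : ℝ) < ((@Finset.filter ι Q d S).card : ℝ) := by
    have := mul_le_mul_of_nonneg_left hS hζ.le
    linarith
  have h2 : 0 < (@Finset.filter ι Q d S).card := by exact_mod_cast h1
  obtain ⟨i, hi⟩ := card_pos.1 h2
  exact ⟨i, (memf.1 hi).1, (memf.1 hi).2⟩

private theorem rich9 {ι X : Type} {inc : X → ι → Prop} {I : Finset ι} {Q Q' : ι → Prop}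
    {d : DecidablePred Q'} {d' : DecidablePred Q'} {p : X} {ρ : ℝ}
    (h1 : ρ ≤ ((SS inc I Q p).card : ℝ))
    (h2 : 9 * (SS inc I Q p).card ≤ 10 * (@Finset.filter ι Q' d (SS inc I Q p)).card) :
    9 / 10 * ρ ≤ ((SS inc (@Finset.filter ι Q' d' I) Q p).card : ℝ) := by
  have e2 : (9 : ℝ) * ((SS inc I Q p).card : ℝ) ≤
      10 * ((@Finset.filter ι Q' d (SS inc I Q p)).card : ℝ) := by
    exact_mod_cast h2
  have e3 : (@Finset.filter ι Q' d (SS inc I Q p)).card =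
      (SS inc (@Finset.filter ι Q' d' I) Q p).card :=
    SS_card' inc I Q Q' p d d' _
  rw [e3] at e2
  linarith

/-- union bound for the kinds of points -/
private theorem cover_card {X : Type} (P Ex : Finset X) (K1 K1' : X → Prop)
    (K2 : ℕ → ℕ → X → Prop) (K3 : ℕ → X → Prop) (J : ℕ) (C : Finset ℕ)
    (h : ∀ p ∈ P, p ∉ Ex → K1 p ∨ K1' p ∨ (∃ i < J, ∃ i' < J, K2 i i' p) ∨ ∃ c ∈ C, K3 c p) :
    (P.card : ℝ) ≤ (Ex.card : ℝ) + (((P.filter K1).card : ℝ) + (((P.filter K1').card : ℝ) +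
      (∑ x ∈ range J ×ˢ range J, ((P.filter (K2 x.1 x.2)).card : ℝ) +
        ∑ c ∈ C, ((P.filter (K3 c)).card : ℝ)))) := by
  have hcover : P ⊆ Ex ∪ (P.filter K1 ∪ (P.filter K1' ∪
      (((range J ×ˢ range J).biUnion (fun x => P.filter (K2 x.1 x.2))) ∪
      (C.biUnion (fun c => P.filter (K3 c)))))) := by
    intro p hp
    by_cases hpE : p ∈ Ex
    · exact mem_union_left _ hpE
    · refine mem_union_right _ ?_
      rcases h p hp hpE with h1 | h1 | ⟨i, hi, i', hi', h1⟩ | ⟨c, hc, h1⟩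
      · exact mem_union_left _ (mem_filter.2 ⟨hp, h1⟩)
      · exact mem_union_right _ (mem_union_left _ (mem_filter.2 ⟨hp, h1⟩))
      · exact mem_union_right _ (mem_union_right _ (mem_union_left _
          (mem_biUnion.2 ⟨(i, i'), mem_product.2 ⟨mem_range.2 hi, mem_range.2 hi'⟩,
            mem_filter.2 ⟨hp, h1⟩⟩)))
      · exact mem_union_right _ (mem_union_right _ (mem_union_right _
          (mem_biUnion.2 ⟨c, hc, mem_filter.2 ⟨hp, h1⟩⟩)))
  have h1 := card_le_card hcover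
  have h2 := card_union_le Ex (P.filter K1 ∪ (P.filter K1' ∪
      (((range J ×ˢ range J).biUnion (fun x => P.filter (K2 x.1 x.2))) ∪
      (C.biUnion (fun c => P.filter (K3 c))))))
  have h3 := card_union_le (P.filter K1) (P.filter K1' ∪
      (((range J ×ˢ range J).biUnion (fun x => P.filter (K2 x.1 x.2))) ∪
      (C.biUnion (fun c => P.filter (K3 c)))))
  have h4 := card_union_le (P.filter K1')
      (((range J ×ˢ range J).biUnion (fun x => P.filter (K2 x.1 x.2))) ∪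
      (C.biUnion (fun c => P.filter (K3 c))))
  have h5 := card_union_le ((range J ×ˢ range J).biUnion (fun x => P.filter (K2 x.1 x.2)))
      (C.biUnion (fun c => P.filter (K3 c)))
  have h6 := card_biUnion_le (s := range J ×ˢ range J) (t := fun x => P.filter (K2 x.1 x.2))
  have h7 := card_biUnion_le (s := C) (t := fun c => P.filter (K3 c))
  have h8 : P.card ≤ Ex.card + ((P.filter K1).card + ((P.filter K1').card +
      (∑ x ∈ range J ×ˢ range J, (P.filter (K2 x.1 x.2)).card +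
        ∑ c ∈ C, (P.filter (K3 c)).card))) := by omega
  exact_mod_cast h8

theorem b_step {κ : Type} (L : κ → ℕ) (V : κ → Type) [∀ t, NormedAddCommGroup (V t)]
    [∀ t, NormedSpace ℝ (V t)] [∀ t, FiniteDimensional ℝ (V t)] (M w : ℝ) (hM : 0 ≤ M)
    (hw : 1 ≤ w) (B : Finset κ) (t : κ) (h : Good L V M w (insert t B)) : Good L V M w B := by
  obtain ⟨A1, hA1, H1⟩ := h
  obtain ⟨J, ζ, hζ, hζ1, HS⟩ := split2 (V t) M w hM hw
  obtain ⟨ρ0, hρ0⟩ : ∃ ρ0 : ℝ, ρ0 = 20 + 2 / ζ := ⟨_, rfl⟩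
  obtain ⟨C3, hC3⟩ : ∃ C3 : ℝ, C3 = (2 + (J : ℝ) ^ 2) * A1 * (1 / ζ ^ 3 + 2 / ζ) + 5 := ⟨_, rfl⟩
  obtain ⟨A, hA⟩ : ∃ A : ℝ, A = 2 * ρ0 + 7 * C3 := ⟨_, rfl⟩
  have h2ζ : 0 < 2 / ζ := by positivity
  have hρ020 : 20 ≤ ρ0 := by rw [hρ0]; linarith
  have hC30 : 0 ≤ C3 := by
    rw [hC3]
    positivity
  have hA0 : 0 ≤ A := by rw [hA]; linarith
  have hA7 : 7 * C3 ≤ A := by rw [hA]; linarith
  have hAρ : 2 * ρ0 ≤ A := by rw [hA]; linarith
  suffices claim : ∀ (N : ℕ) {ι X : Type} (inc : X → ι → Prop) (pt : X → (t : κ) → W (L t))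
      (a : (t : κ) → ι → V t) (I : Finset ι) (P : Finset X) (Lf Rf : ι → Prop) (ρ : ℝ),
      I.card = N → Fam L V M w inc pt a I P →
      (∀ t ∈ B, SepA inc (fun p => pt p t) I Lf Rf P) → 2 ≤ ρ →
      (∀ p ∈ P, ρ ≤ ((SS inc I Lf p).card : ℝ)) →
      (∀ p ∈ P, ρ ≤ ((SS inc I Rf p).card : ℝ)) →
      (P.card : ℝ) ≤ A * ((I.card : ℝ) ^ 2 / ρ ^ 3) + 2 * (I.card / ρ) by
    refine ⟨A + 2, by linarith, ?_⟩
    intro ι X inc pt a I P Lf Rf ρ hF hB hρ hL hR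
    refine (claim I.card inc pt a I P Lf Rf ρ rfl hF hB hρ hL hR).trans ?_
    have e1 : 0 ≤ (I.card : ℝ) ^ 2 / ρ ^ 3 := by positivity
    have e2 : 0 ≤ (I.card : ℝ) / ρ := by positivity
    have e3 := mul_nonneg hA0 e2
    have e4 : (A + 2) * ((I.card : ℝ) ^ 2 / ρ ^ 3 + I.card / ρ) =
        A * ((I.card : ℝ) ^ 2 / ρ ^ 3) + 2 * ((I.card : ℝ) ^ 2 / ρ ^ 3) +
          A * (I.card / ρ) + 2 * (I.card / ρ) := by ring
    rw [e4]
    linarith
  intro N
  induction N using Nat.strong_induction_on with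
  | _ N ih =>
  intro ι X inc pt a I P Lf Rf ρ hN hF hB hρ hL hR
  have hρpos : 0 < ρ := by linarith
  have hN0 : (0 : ℝ) ≤ (I.card : ℝ) := Nat.cast_nonneg _
  have hX0 : 0 ≤ (I.card : ℝ) ^ 2 / ρ ^ 3 := by positivity
  have hY0 : 0 ≤ (I.card : ℝ) / ρ := by positivity
  by_cases c1 : ρ ≤ ρ0
  · have h1 := triv2 I P (SS inc I Lf) (fun p _ => SS_sub _ _ _ _) (SS_one hF Lf) ρ hρ hL
    have h2 : (P.card : ℝ) ≤ 2 * ρ * ((I.card : ℝ) ^ 2 / ρ ^ 3) := by
      have e1 : 2 * ρ * ((I.card : ℝ) ^ 2 / ρ ^ 3) = 2 * (I.card : ℝ) ^ 2 / ρ ^ 2 := by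
        field_simp
      rw [e1, le_div_iff₀ (by positivity)]
      exact h1
    have h3 : 2 * ρ * ((I.card : ℝ) ^ 2 / ρ ^ 3) ≤ A * ((I.card : ℝ) ^ 2 / ρ ^ 3) :=
      mul_le_mul_of_nonneg_right (by linarith) hX0
    linarith
  by_cases c2 : 2 * (I.card : ℝ) ≤ ρ ^ 2
  · have h1 := triv1 I P (SS inc I Lf) (fun p _ => SS_sub _ _ _ _) (SS_one hF Lf) ρ hρpos hL c2
    have h2 : 2 * (I.card : ℝ) / ρ = 2 * (I.card / ρ) := by ring
    rw [h2] at h1
    have h3 := mul_nonneg hA0 hX0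
    linarith
  push Not at c1 c2
  have hρ20 : 20 ≤ ρ := by linarith
  have hNpos : 0 < I.card := by
    have h1 : (0 : ℝ) < (I.card : ℝ) := by nlinarith [sq_nonneg ρ]
    exact_mod_cast h1
  have hζρ : 2 ≤ ζ * ρ := by
    have h1 : 2 / ζ < ρ := by linarith
    rw [div_lt_iff₀ hζ] at h1
    linarith
  by_cases c3 : ∃ v : V t, I.card ≤ 2 * (I.filter (fun i => a t i = v)).card
  · obtain ⟨v, hv⟩ := c3
    have h1 := card_filter_add_card_filter_not (s := I) (fun i => a t i = v)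
    have h2 : 2 * (I.filter (fun i => ¬ a t i = v)).card ≤ I.card := by omega
    have h3 := ih (I.filter (fun i => ¬ a t i = v)).card (by omega) inc pt a
      (I.filter (fun i => ¬ a t i = v)) P Lf Rf (ρ - 1) rfl
      (fam_mono hF (filter_subset _ _) (Finset.Subset.refl _))
      (fun s hs => sepA_mono (hB s hs) (filter_subset _ _) (Finset.Subset.refl _)
        (fun _ _ h => h) (fun _ _ h => h)) (by linarith)
      (fun p hp => atom_rich hF Lf t v hp (hL p hp))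
      (fun p hp => atom_rich hF Rf t v hp (hR p hp))
    exact h3.trans (atom_arith A I.card _ ρ hA0 (Nat.cast_nonneg _) (by exact_mod_cast h2) hρ20)
  push Not at c3
  have hcpos : ∀ (Q : ι → Prop), (∀ p ∈ P, ρ ≤ ((SS inc I Q p).card : ℝ)) →
      ∀ p ∈ P, (SS inc I Q p).Nonempty := by
    intro Q hQ p hp
    have h1 := hQ p hp
    have h2 : (0 : ℝ) < ((SS inc I Q p).card : ℝ) := by linarith
    exact card_pos.1 (by exact_mod_cast h2)
  obtain ⟨f0, R, δ, pat, cls, Ex, hf0, hR0, hδ, hpat, hdiam, hcls, hExP, hEx, hcase⟩ :=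
    HS I (a t) P (SS inc I Lf) (SS inc I Rf) (fun p _ => SS_sub _ _ _ _)
      (fun p _ => SS_sub _ _ _ _) (hcpos Lf hL) (hcpos Rf hR) c3
  -- the four kinds of points
  obtain ⟨K1, hK1⟩ : ∃ K : X → Prop, ∀ p, K p ↔
      (ζ * (SS inc I Lf p).card ≤
        (((SS inc I Lf p).filter (fun f => ‖a t f - a t f0‖ ≤ R)).card : ℝ) ∧
      ζ * (SS inc I Rf p).card ≤
        (((SS inc I Rf p).filter (fun f => w * R < ‖a t f - a t f0‖)).card : ℝ)) :=
    ⟨_, fun _ => Iff.rfl⟩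
  obtain ⟨K1', hK1'⟩ : ∃ K : X → Prop, ∀ p, K p ↔
      (ζ * (SS inc I Lf p).card ≤
        (((SS inc I Lf p).filter (fun f => w * R < ‖a t f - a t f0‖)).card : ℝ) ∧
      ζ * (SS inc I Rf p).card ≤
        (((SS inc I Rf p).filter (fun f => ‖a t f - a t f0‖ ≤ R)).card : ℝ)) :=
    ⟨_, fun _ => Iff.rfl⟩
  obtain ⟨K2, hK2⟩ : ∃ K : ℕ → ℕ → X → Prop, ∀ i i' p, K i i' p ↔
      ((∀ f ∈ I, ∀ g ∈ I, ‖a t f - a t f0‖ ≤ R → ‖a t g - a t f0‖ ≤ R → pat f = i →
        pat g = i' → M * δ ≤ ‖a t f - a t g‖) ∧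
      ζ * (SS inc I Lf p).card ≤
        (((SS inc I Lf p).filter (fun f => ‖a t f - a t f0‖ ≤ R ∧ pat f = i)).card : ℝ) ∧
      ζ * (SS inc I Rf p).card ≤
        (((SS inc I Rf p).filter (fun f => ‖a t f - a t f0‖ ≤ R ∧ pat f = i')).card : ℝ)) :=
    ⟨_, fun _ _ _ => Iff.rfl⟩
  obtain ⟨K3, hK3⟩ : ∃ K : ℕ → X → Prop, ∀ c p, K c p ↔
      (9 * (SS inc I Lf p).card ≤ 10 * ((SS inc I Lf p).filter (fun f => cls f = c)).card ∧
      9 * (SS inc I Rf p).card ≤ 10 * ((SS inc I Rf p).filter (fun f => cls f = c)).card) :=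
    ⟨_, fun _ _ => Iff.rfl⟩
  have hcase' : ∀ p ∈ P, p ∉ Ex → K1 p ∨ K1' p ∨ (∃ i < J, ∃ i' < J, K2 i i' p) ∨
      ∃ c ∈ I.image cls, K3 c p := by
    intro p hp hpE
    rcases hcase p hp hpE with h1 | h1 | ⟨i, hi, i', hi', h1⟩ | ⟨c, h1, h2⟩
    · exact Or.inl ((hK1 p).2 h1)
    · exact Or.inr (Or.inl ((hK1' p).2 h1))
    · exact Or.inr (Or.inr (Or.inl ⟨i, hi, i', hi', (hK2 i i' p).2 h1⟩))
    · refine Or.inr (Or.inr (Or.inr ⟨c, ?_, (hK3 c p).2 ⟨h1, h2⟩⟩))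
      have h3 : 0 < ((SS inc I Lf p).filter (fun f => cls f = c)).card := by
        have h4 := card_pos.2 (hcpos Lf hL p hp)
        omega
      obtain ⟨f, hf⟩ := card_pos.1 h3
      obtain ⟨hf1, hf2⟩ := memf.1 hf
      exact mem_image.2 ⟨f, SS_sub _ _ _ _ hf1, hf2⟩
  clear hcase
  have hcard := cover_card P Ex K1 K1' K2 K3 J (I.image cls) hcase'
  obtain ⟨T, hT⟩ : ∃ T : ℝ, T = A1 * ((I.card : ℝ) ^ 2 / (ζ * ρ) ^ 3 + I.card / (ζ * ρ)) :=
    ⟨_, rfl⟩
  have hT0 : 0 ≤ T := by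
    rw [hT]
    have : 0 < ζ * ρ := by linarith
    positivity
  have b1 : ((P.filter K1).card : ℝ) ≤ T := by
    rw [hT]
    have hmem : ∀ p ∈ P.filter K1, _ := fun p hp => (hK1 p).1 (mem_filter.1 hp).2
    refine kind H1 hF hB hζ hζρ hL hR (fun f => ‖a t f - a t f0‖ ≤ R)
      (fun f => w * R < ‖a t f - a t f0‖) _ _ (P.filter K1) (filter_subset _ _) ?_
      (fun p hp => (hmem p hp).1) (fun p hp => (hmem p hp).2)
    refine (hF.nf t f0 hf0 R hR0 _ (filter_subset _ _) fun p hp => ?_).1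
    obtain ⟨i, hi, hi'⟩ := exists_of_card hζρ hζ (hL p (filter_subset _ _ hp)) (hmem p hp).1
    exact ⟨i, SS_sub _ _ _ _ hi, (mem_filter.1 hi).2.1, hi'⟩
  have b1' : ((P.filter K1').card : ℝ) ≤ T := by
    rw [hT]
    have hmem : ∀ p ∈ P.filter K1', _ := fun p hp => (hK1' p).1 (mem_filter.1 hp).2
    refine kind H1 hF hB hζ hζρ hL hR (fun f => w * R < ‖a t f - a t f0‖)
      (fun f => ‖a t f - a t f0‖ ≤ R) _ _ (P.filter K1') (filter_subset _ _) ?_
      (fun p hp => (hmem p hp).1) (fun p hp => (hmem p hp).2)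
    refine (hF.nf t f0 hf0 R hR0 _ (filter_subset _ _) fun p hp => ?_).2
    obtain ⟨i, hi, hi'⟩ := exists_of_card hζρ hζ (hR p (filter_subset _ _ hp)) (hmem p hp).2
    exact ⟨i, SS_sub _ _ _ _ hi, (mem_filter.1 hi).2.1, hi'⟩
  have b2 : ∀ x ∈ range J ×ˢ range J, ((P.filter (K2 x.1 x.2)).card : ℝ) ≤ T := by
    intro x _
    rcases (P.filter (K2 x.1 x.2)).eq_empty_or_nonempty with h0 | h0
    · rw [h0, card_empty, Nat.cast_zero]
      exact hT0
    · obtain ⟨p0, hp0⟩ := h0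
      rw [hT]
      have hmem : ∀ p ∈ P.filter (K2 x.1 x.2), _ :=
        fun p hp => (hK2 x.1 x.2 p).1 (mem_filter.1 hp).2
      have hp0P : p0 ∈ P := filter_subset _ _ hp0
      obtain ⟨hs0, hs1, hs2⟩ := hmem p0 hp0
      refine kind H1 hF hB hζ hζρ hL hR (fun f => ‖a t f - a t f0‖ ≤ R ∧ pat f = x.1)
        (fun f => ‖a t f - a t f0‖ ≤ R ∧ pat f = x.2) _ _ (P.filter (K2 x.1 x.2))
        (filter_subset _ _) ?_ (fun p hp => (hmem p hp).2.1) (fun p hp => (hmem p hp).2.2)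
      refine sepA_mono (hF.nn t (fun f => ‖a t f - a t f0‖ ≤ R ∧ pat f = x.1)
        (fun f => ‖a t f - a t f0‖ ≤ R ∧ pat f = x.2) δ hδ
        (fun i hi j hj h1 h2 => hdiam i hi j hj h1.1 h2.1 (h1.2.trans h2.2.symm))
        (fun i hi j hj h1 h2 => hdiam i hi j hj h1.1 h2.1 (h1.2.trans h2.2.symm))
        (fun i hi j hj h1 h2 => hs0 i hi j hj h1.1 h2.1 h1.2 h2.2) ?_) (Finset.Subset.refl _)
        (filter_subset _ _) (fun _ _ h => h) (fun _ _ h => h)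
      obtain ⟨i, hi, hi'⟩ := exists_of_card hζρ hζ (hL p0 hp0P) hs1
      obtain ⟨j, hj, hj'⟩ := exists_of_card hζρ hζ (hR p0 hp0P) hs2
      exact ⟨p0, hp0P, i, SS_sub _ _ _ _ hi, j, SS_sub _ _ _ _ hj, (mem_filter.1 hi).2.1,
        (mem_filter.1 hj).2.1, hi', hj'⟩
  have b3 : ∀ c ∈ I.image cls, ((P.filter (K3 c)).card : ℝ) ≤
      A * (((I.filter (fun f => cls f = c)).card : ℝ) ^ 2 / (9 / 10 * ρ) ^ 3) +
        2 * ((I.filter (fun f => cls f = c)).card / (9 / 10 * ρ)) := by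
    intro c _
    have hmem : ∀ p ∈ P.filter (K3 c), _ := fun p hp => (hK3 c p).1 (mem_filter.1 hp).2
    have h1 := hcls c
    exact ih (I.filter (fun f => cls f = c)).card (by omega) inc pt a
      (I.filter (fun f => cls f = c)) (P.filter (K3 c)) Lf Rf (9 / 10 * ρ) rfl
      (fam_mono hF (filter_subset _ _) (filter_subset _ _))
      (fun s hs => sepA_mono (hB s hs) (filter_subset _ _) (filter_subset _ _)
        (fun _ _ h => h) (fun _ _ h => h)) (by linarith)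
      (fun p hp => rich9 (hL p (filter_subset _ _ hp)) (hmem p hp).1)
      (fun p hp => rich9 (hR p (filter_subset _ _ hp)) (hmem p hp).2)
  have s2 : ∑ x ∈ range J ×ˢ range J, ((P.filter (K2 x.1 x.2)).card : ℝ) ≤ (J : ℝ) ^ 2 * T := by
    refine (sum_le_sum b2).trans (le_of_eq ?_)
    rw [sum_const, card_product, card_range, nsmul_eq_mul]
    push_cast
    ring
  have s3 : ∑ c ∈ I.image cls, ((P.filter (K3 c)).card : ℝ) ≤
      A * ((I.card : ℝ) ^ 2 / 2 / (9 / 10 * ρ) ^ 3) + 2 * (I.card / (9 / 10 * ρ)) :=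
    (sum_le_sum b3).trans (class_sum I cls A (9 / 10 * ρ) hA0 (by linarith) hcls)
  have sE : (Ex.card : ℝ) ≤ 3 / 20 * P.card := by
    have h1 : (20 : ℝ) * (Ex.card : ℝ) ≤ 3 * (P.card : ℝ) := by exact_mod_cast hEx
    linarith
  refine b_arith A1 ζ J A P.card I.card ρ C3 (by linarith) hζ (Nat.cast_nonneg _) hρpos c2 hC3
    hA7 ?_
  rw [← hT]
  have e5 : (2 + (J : ℝ) ^ 2) * T = T + T + (J : ℝ) ^ 2 * T := by ring
  rw [e5]
  linarith

end CFS
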