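import Pool.Agent.CFS.B.QOne
import Pool.Agent.CFS.B.BThm

/-!
# Module CFSB-QThm: quasi-linear block families, sup norm

Plan.  `V t = E (L t) →L[ℝ] E (L t)`, `a t i = B i t`, `M = 200 K²`, `w = 40004 K`, `Fam` from the lemmas of
`QOne` in each block (`one`: `q_one` in every block `t` and `ptinj`; if `κ` is empty, `ptinj` says that `P` has at
most one point, so `p ≠ q` is impossible).  `Quasi` for a fixed block `t` with `inc`, `pt · t`, `B · t`, `h · t`.
Then `b_thm`.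
-/

noncomputable section

namespace CFS

open Finset Classical

theorem q_thm {κ : Type} [Fintype κ] (L : κ → ℕ) (K ε : ℝ) (hK : 1 ≤ K) (hε : 0 ≤ ε)
    (hKε : 400 * K ^ 2 * ε ≤ 1) : ∃ A : ℝ, 0 ≤ A ∧
    ∀ {ι X : Type} (inc : X → ι → Prop) (pt : X → (t : κ) → W (L t))
      (B : ι → (t : κ) → (E (L t) →L[ℝ] E (L t))) (h : ι → (t : κ) → E (L t) → E (L t))
      (I : Finset ι) (P : Finset X),
      (∀ p ∈ P, ∀ q ∈ P, (∀ t, pt p t = pt q t) → p = q) →
      (∀ t, Quasi K ε inc (fun p => pt p t) (fun i => B i t) (fun i => h i t) I P) →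
      ((∑ p ∈ P, (I.filter (fun i => inc p i)).card : ℕ) : ℝ) ≤
        A * ((P.card : ℝ) ^ (2 / 3 : ℝ) * (I.card : ℝ) ^ (2 / 3 : ℝ) + P.card + I.card) := by
  obtain ⟨A, hA, h⟩ := b_thm L (fun t => E (L t) →L[ℝ] E (L t)) (200 * K ^ 2) (40004 * K)
    (by positivity) (by linarith)
  refine ⟨A, hA, ?_⟩
  intro ι X inc pt B h' I P hinj H
  refine h inc pt (fun t i => B i t) I P ⟨hinj, ?_, ?_, ?_, ?_⟩
  · intro p hp q hq hpq i hi j hj h1 h2 h3 h4
    by_contra hij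
    exact hpq (hinj p hp q hq fun t => q_one (H t) hp hq hi hj hij h1 h2 h3 h4)
  · intro t p hp i hi j hj hij h1 h2
    exact ((H t).conf p hp i hi j hj hij h1 h2).1
  · intro t i0 hi0 R hR P' hP' hn
    exact q_near_far (H t) i0 hi0 R hR P' hP' hn
  · intro t Q1 Q2 δ hδ h1 h2 h3 h4
    exact q_near_near (H t) Q1 Q2 δ hδ h1 h2 h3 h4

end CFS
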